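import Pool.Agent.W478.RP5.Key

set_option autoImplicit false

namespace Pool.Agent.W478.RP5

/-- The linear algebra behind the Jacobian criterion for the example. -/
theorem jac {K : Type*} [Field K] [CharZero K] {c ϖ : K} (hc0 : c ≠ 0) (hϖ : ϖ ≠ 0)
    (hD : 1 - 4 * c ≠ 0)
    (h1 : (1 - 4 * c) + 8 * ϖ + 16 * ϖ ^ 2 ≠ 0)
    (h2 : (1 - 4 * c) ^ 2 - 64 * ϖ ^ 3 ≠ 0)
    (h3 : ((1 - 4 * c) + 4 * ϖ) ^ 2 - 16 * ϖ ≠ 0)
    {x₁ x₂ y₁ y₂ z w l m : K} (hlm : l ≠ 0 ∨ m ≠ 0)
    (ef : x₁ * x₂ + ϖ ^ 2 * y₁ ^ 2 - z * w = 0)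
    (eg : (x₁ ^ 2 + x₁ * x₂ + c * x₂ ^ 2) + ϖ * (y₂ ^ 2 + y₂ * y₁ + c * y₁ ^ 2)
      - z ^ 2 - ϖ * w ^ 2 = 0)
    (a : l * x₂ + m * (2 * x₁ + x₂) = 0)
    (b : l * x₁ + m * (x₁ + 2 * c * x₂) = 0)
    (e : l * (2 * ϖ ^ 2 * y₁) + m * (ϖ * (y₂ + 2 * c * y₁)) = 0)
    (d : m * (ϖ * (2 * y₂ + y₁)) = 0)
    (g : l * w + m * (2 * z) = 0)
    (h : l * z + m * (2 * ϖ * w) = 0) :
    x₁ = 0 ∧ x₂ = 0 ∧ y₁ = 0 ∧ y₂ = 0 ∧ z = 0 ∧ w = 0 := by
  by_cases hm : m = 0
  · subst hm
    have hl : l ≠ 0 := by simpa using hlm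
    have hx2 : x₂ = 0 := by simpa [hl] using a
    have hx1 : x₁ = 0 := by simpa [hl] using b
    have hw : w = 0 := by simpa [hl] using g
    have hz : z = 0 := by simpa [hl] using h
    have hy1 : y₁ = 0 := by
      have : l * (2 * ϖ ^ 2 * y₁) = 0 := by simpa using e
      simpa [hl, hϖ] using this
    subst hx2 hx1 hw hz hy1
    have hy2 : y₂ = 0 := by
      have : ϖ * y₂ ^ 2 = 0 := by linear_combination eg
      simpa [hϖ] using this
    exact ⟨rfl, rfl, rfl, hy2, rfl, rfl⟩
  · -- normalise `m = 1`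
    obtain ⟨t, rfl⟩ : ∃ t, l = t * m := ⟨l / m, by field_simp⟩
    have a' : t * x₂ + (2 * x₁ + x₂) = 0 := by
      apply mul_left_cancel₀ hm; linear_combination a
    have b' : t * x₁ + (x₁ + 2 * c * x₂) = 0 := by
      apply mul_left_cancel₀ hm; linear_combination b
    have d' : 2 * y₂ + y₁ = 0 := by
      apply mul_left_cancel₀ (mul_ne_zero hm hϖ); linear_combination d
    have e' : t * (2 * ϖ * y₁) + (y₂ + 2 * c * y₁) = 0 := by
      apply mul_left_cancel₀ (mul_ne_zero hm hϖ); linear_combination e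
    have g' : t * w + 2 * z = 0 := by
      apply mul_left_cancel₀ hm; linear_combination g
    have h' : t * z + 2 * ϖ * w = 0 := by
      apply mul_left_cancel₀ hm; linear_combination h
    have hy1 : y₁ = -2 * y₂ := by linear_combination d'
    -- determinants
    have dx1 : (4 * c - (1 + t) ^ 2) * x₂ = 0 := by
      linear_combination 2 * b' - (1 + t) * a'
    have dx2 : (4 * c - (1 + t) ^ 2) * x₁ = 0 := by
      linear_combination 2 * c * a' - (1 + t) * b'
    have dw : (4 * ϖ - t ^ 2) * w = 0 := by linear_combination 2 * h' - t * g'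
    have dz : (4 * ϖ - t ^ 2) * z = 0 := by linear_combination 2 * ϖ * g' - t * h'
    have dy : (1 - 4 * c - 4 * t * ϖ) * y₂ = 0 := by
      rw [hy1] at e'
      linear_combination e'
    by_cases hy2 : y₂ = 0
    · have hy1' : y₁ = 0 := by rw [hy1, hy2]; ring
      rw [hy1', hy2] at eg
      rw [hy1'] at ef
      by_cases hdx : 4 * c - (1 + t) ^ 2 = 0
      · -- then `z = w = 0`
        have hdz : 4 * ϖ - t ^ 2 ≠ 0 := by
          intro hdz
          apply h3
          have e1 : t ^ 2 = 4 * ϖ := by linear_combination -hdz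
          have e2 : 4 * c = 1 + 2 * t + 4 * ϖ := by linear_combination hdx + e1
          have e3 : 2 * t = 4 * c - 1 - 4 * ϖ := by linear_combination -e2
          have e4 : (2 * t) ^ 2 = 16 * ϖ := by linear_combination 4 * e1
          rw [e3] at e4
          linear_combination e4
        have hz : z = 0 := by simpa [hdz] using dz
        have hw : w = 0 := by simpa [hdz] using dw
        rw [hz, hw] at ef eg
        have hxx : x₁ * x₂ = 0 := by linear_combination ef
        rcases mul_eq_zero.mp hxx with hx | hx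
        · rw [hx] at eg
          have : c * x₂ ^ 2 = 0 := by linear_combination eg
          have hx2 : x₂ = 0 := by simpa [hc0] using this
          exact ⟨hx, hx2, hy1', hy2, hz, hw⟩
        · rw [hx] at eg
          have : x₁ ^ 2 = 0 := by linear_combination eg
          have hx1 : x₁ = 0 := by simpa using this
          exact ⟨hx1, hx, hy1', hy2, hz, hw⟩
      · have hx1 : x₁ = 0 := by simpa [hdx] using dx2
        have hx2 : x₂ = 0 := by simpa [hdx] using dx1
        rw [hx1, hx2] at ef eg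
        have hzw : z * w = 0 := by linear_combination -ef
        rcases mul_eq_zero.mp hzw with hz | hw
        · rw [hz] at eg
          have : ϖ * w ^ 2 = 0 := by linear_combination -eg
          have hw : w = 0 := by simpa [hϖ] using this
          exact ⟨hx1, hx2, hy1', hy2, hz, hw⟩
        · rw [hw] at eg
          have : z ^ 2 = 0 := by linear_combination -eg
          have hz : z = 0 := by simpa using this
          exact ⟨hx1, hx2, hy1', hy2, hz, hw⟩
    · exfalso
      have ht4 : 4 * t * ϖ = 1 - 4 * c := by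
        rcases mul_eq_zero.mp dy with h' | h'
        · linear_combination -h'
        · exact absurd h' hy2
      have hdx : 4 * c - (1 + t) ^ 2 ≠ 0 := by
        intro hdx
        apply mul_ne_zero hD h1
        have : (4 * c - (1 + t) ^ 2) * (16 * ϖ ^ 2) = 0 := by rw [hdx]; ring
        have e2 : (4 * ϖ + 4 * t * ϖ) ^ 2 = 64 * c * ϖ ^ 2 := by linear_combination -this
        rw [ht4] at e2
        linear_combination e2
      have hdz : 4 * ϖ - t ^ 2 ≠ 0 := by
        intro hdz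
        apply h2
        have : (4 * ϖ - t ^ 2) * (16 * ϖ ^ 2) = 0 := by rw [hdz]; ring
        have e2 : (4 * t * ϖ) ^ 2 = 64 * ϖ ^ 3 := by linear_combination -this
        rw [ht4] at e2
        linear_combination e2
      have hx1 : x₁ = 0 := by simpa [hdx] using dx2
      have hx2 : x₂ = 0 := by simpa [hdx] using dx1
      have hz : z = 0 := by simpa [hdz] using dz
      have hw : w = 0 := by simpa [hdz] using dw
      rw [hx1, hx2, hz, hw] at ef
      have : ϖ ^ 2 * y₁ ^ 2 = 0 := by linear_combination ef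
      have hy : y₁ = 0 := by simpa [hϖ] using this
      apply hy2
      rw [hy1] at hy
      simpa using hy

variable {k : Type*} [Field k] {v : AbsoluteValue k ℝ} {ϖ : k}

theorem v_add_eq_of_lt (hv : Disc v ϖ) {x y : k} (h : v y < v x) : v (x + y) = v x :=
  IsNonarchimedean.add_eq_left_of_lt (f := v) hv.na h

theorem v_lt_one_add (hv : Disc v ϖ) {x y : k} (hx : v x = 1) (hy : v y < 1) : x + y ≠ 0 := by
  intro h
  have := v_add_eq_of_lt hv (x := x) (y := y) (by rw [hx]; exact hy)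
  rw [h, hx] at this
  simp at this

/-- The nonvanishing conditions of `jac`. -/
theorem conditions (hv : Disc v ϖ) {c : k} (hc : Anis v c) (hint : ∀ n : ℤ, v n ≤ 1) :
    c ≠ 0 ∧ ϖ ≠ 0 ∧ 1 - 4 * c ≠ 0 ∧ (1 - 4 * c) + 8 * ϖ + 16 * ϖ ^ 2 ≠ 0 ∧
    (1 - 4 * c) ^ 2 - 64 * ϖ ^ 3 ≠ 0 ∧ ((1 - 4 * c) + 4 * ϖ) ^ 2 - 16 * ϖ ≠ 0 := by
  have hϖ0 := hv.pos
  have hϖ1 := hv.lt
  have hc1 : v c = 1 := by simpa using hc 0 1
  have nat : ∀ n : ℕ, v (n : k) ≤ 1 := fun n => by simpa using hint n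
  have hle : ∀ x y : k, v (x + y) ≤ max (v x) (v y) := hv.na
  have hD : v (1 - 4 * c) = 1 := by
    have h := hc (-(2 * c)) 1
    have e : (-(2 * c)) ^ 2 + (-(2 * c)) * 1 + c * 1 ^ 2 = c * (-(1 - 4 * c)) := by ring
    rw [e, map_mul, hc1, one_mul, AbsoluteValue.map_neg, map_one] at h
    have h4 : v (-(2 * c)) ≤ 1 := by
      rw [AbsoluteValue.map_neg, map_mul, hc1, mul_one]
      exact_mod_cast nat 2
    rw [h, max_eq_right h4]
    norm_num
  have small : ∀ (n : ℕ) (x : k), v x < 1 → v (n * x) < 1 := by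
    intro n x hx
    rw [map_mul]
    have := nat n
    have h0 := AbsoluteValue.nonneg v x
    have h1 := AbsoluteValue.nonneg v (n : k)
    nlinarith
  have sϖ : ∀ (n : ℕ) (m : ℕ), v ((n : k) * ϖ ^ (m + 1)) < 1 := by
    intro n m
    apply small
    rw [map_pow]
    exact pow_lt_one₀ hϖ0.le hϖ1 (by omega)
  refine ⟨?_, ?_, ?_, ?_, ?_, ?_⟩
  · intro h; rw [h] at hc1; simp at hc1
  · intro h; rw [h] at hϖ0; simp at hϖ0
  · intro h; rw [h] at hD; simp at hD
  · have h1 : v ((8 : ℕ) * ϖ ^ (0 + 1) + (16 : ℕ) * ϖ ^ (1 + 1)) < 1 :=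
      (hle _ _).trans_lt (max_lt (sϖ 8 0) (sϖ 16 1))
    have := v_lt_one_add hv hD h1
    intro h
    apply this
    push_cast
    linear_combination h
  · have h0 : v ((1 - 4 * c) ^ 2) = 1 := by rw [map_pow, hD, one_pow]
    have h1 : v (-((64 : ℕ) * ϖ ^ (2 + 1))) < 1 := by
      rw [AbsoluteValue.map_neg]; exact sϖ 64 2
    have := v_lt_one_add hv h0 h1
    intro h
    apply this
    push_cast
    linear_combination h
  · have h0 : v ((1 - 4 * c) ^ 2) = 1 := by rw [map_pow, hD, one_pow]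
    have hD' : v ((1 - 4 * c) * ((8 : ℕ) * ϖ ^ (0 + 1))) < 1 := by
      rw [map_mul, hD, one_mul]; exact sϖ 8 0
    have h1 : v ((1 - 4 * c) * ((8 : ℕ) * ϖ ^ (0 + 1)) +
        ((16 : ℕ) * ϖ ^ (1 + 1) + -((16 : ℕ) * ϖ ^ (0 + 1)))) < 1 := by
      refine (hle _ _).trans_lt (max_lt hD' ((hle _ _).trans_lt (max_lt (sϖ 16 1) ?_)))
      rw [AbsoluteValue.map_neg]; exact sϖ 16 0
    have := v_lt_one_add hv h0 h1
    intro h
    apply this
    push_cast
    linear_combination h

end Pool.Agent.W478.RP5
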