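import Pool.Agent.W478.RP5.Core

set_option autoImplicit false

open IsDedekindDomain

namespace Pool.Agent.W478.RP5

/-- In a finite field (finite domain) the map `x ↦ x² + x` is not injective, hence not
surjective. -/
theorem exists_no_root (F : Type*) [Field F] [Finite F] : ∃ c : F, ∀ x : F, x ^ 2 + x + c ≠ 0 := by
  by_contra hcon
  push Not at hcon
  have hsurj : Function.Surjective (fun x : F => x ^ 2 + x) := by
    intro y
    obtain ⟨x, hx⟩ := hcon (-y)
    exact ⟨x, by linear_combination hx⟩
  have hinj := Finite.injective_iff_surjective.mpr hsurj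
  have h : (fun x : F => x ^ 2 + x) 0 = (fun x : F => x ^ 2 + x) (-1) := by
    simp
  have := hinj h
  exact one_ne_zero (neg_eq_zero.mp this.symm)

variable {R : Type*} [CommRing R] [IsDedekindDomain R] {K : Type*} [Field K] [Algebra R K]
  [IsFractionRing R K]

theorem disc_adic (P : HeightOneSpectrum R) (π : K)
    (hπ : P.valuation K π = WithZero.exp (-1 : ℤ)) :
    Disc (P.adicAbv (K := K) (b := 2) one_lt_two) π := by
  set w := P.adicAbv (K := K) (b := 2) one_lt_two with hw
  have hval : ∀ (x : K) (n : ℤ), P.valuation K x = WithZero.exp n → w x = 2 ^ n := by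
    intro x n hx
    show ((P.adicAbvDef one_lt_two x : NNReal) : ℝ) = 2 ^ n
    rw [HeightOneSpectrum.adicAbvDef, hx, WithZeroMulInt.toNNReal_neg_apply _ (by simp),
      NNReal.coe_zpow]
    rfl
  have hπ' := hval π _ hπ
  refine ⟨P.isNonarchimedean_adicAbv one_lt_two, ?_, ?_, ?_⟩
  · rw [hπ']; positivity
  · rw [hπ']; norm_num
  · intro x hx
    have hx' : P.valuation K x ≠ 0 := (Valuation.ne_zero_iff _).mpr hx
    refine ⟨-WithZero.log (P.valuation K x), ?_⟩
    rw [hval x (WithZero.log (P.valuation K x)) (WithZero.exp_log hx').symm, hπ', ← zpow_mul]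
    congr 1
    ring

theorem anis_adic (P : HeightOneSpectrum R) (c : R)
    (hc : ∀ r : R, r ^ 2 + r + c ∉ P.asIdeal) :
    Anis (P.adicAbv (K := K) (b := 2) one_lt_two) (algebraMap R K c) := by
  set w := P.adicAbv (K := K) (b := 2) one_lt_two with hw
  have hna : IsNonarchimedean w := P.isNonarchimedean_adicAbv one_lt_two
  have hle : ∀ r : R, w (algebraMap R K r) ≤ 1 := fun r => P.adicAbv_coe_le_one one_lt_two r
  have hlt : ∀ x y : K, w y < w x → w (x + y) = w x := by
    intro x y h
    exact (IsNonarchimedean.add_eq_left_of_lt (f := w) hna h)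
  have hc1 : w (algebraMap R K c) = 1 := by
    rw [P.adicAbv_coe_eq_one_iff]
    have := hc 0
    simpa using this
  -- elements of absolute value at most one
  have h1 : ∀ t : K, w t ≤ 1 → w (t ^ 2 + t + algebraMap R K c) = 1 := by
    intro t ht
    have ht' : P.valuation K t ≤ 1 := by
      have : ((P.adicAbvDef one_lt_two t : NNReal) : ℝ) ≤ 1 := ht
      have h2 : P.adicAbvDef one_lt_two t ≤ 1 := by exact_mod_cast this
      rw [HeightOneSpectrum.adicAbvDef] at h2
      exact (WithZeroMulInt.toNNReal_le_one_iff one_lt_two).mp h2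
    obtain ⟨a, ha⟩ := P.exists_valuation_sub_lt_of_integer (K := K) ht' 1
    have ha' : w (algebraMap R K a - t) < 1 := by
      have h2 : P.adicAbvDef one_lt_two (algebraMap R K a - t) < 1 := by
        rw [HeightOneSpectrum.adicAbvDef]
        exact (WithZeroMulInt.toNNReal_lt_one_iff one_lt_two).mpr (by simpa using ha)
      exact_mod_cast h2
    have e : t ^ 2 + t + algebraMap R K c =
        algebraMap R K (a ^ 2 + a + c) + (t - algebraMap R K a) * (t + algebraMap R K a + 1) := by
      rw [map_add, map_add, map_pow]; ring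
    have hu : w (algebraMap R K (a ^ 2 + a + c)) = 1 := by
      rw [P.adicAbv_coe_eq_one_iff]
      exact hc a
    have hs : w ((t - algebraMap R K a) * (t + algebraMap R K a + 1)) < 1 := by
      rw [map_mul]
      have h3 : w (t - algebraMap R K a) < 1 := by
        rw [← AbsoluteValue.map_neg]; simpa using ha'
      have h4 : w (t + algebraMap R K a + 1) ≤ 1 := by
        refine (hna _ _).trans (max_le ((hna _ _).trans (max_le ht (hle a))) ?_)
        rw [map_one]
      have h5 := AbsoluteValue.nonneg w (t + algebraMap R K a + 1)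
      have h6 := AbsoluteValue.nonneg w (t - algebraMap R K a)
      nlinarith
    rw [e, hlt _ _ (by rw [hu]; exact hs), hu]
  intro x y
  by_cases hy : y = 0
  · subst hy
    simp
  have hy0 : 0 < w y := (AbsoluteValue.pos_iff w).mpr hy
  rcases le_or_gt (w x) (w y) with h | h
  · have ht : w (x / y) ≤ 1 := by
      rw [map_div₀]
      exact (div_le_one hy0).mpr h
    have e : x ^ 2 + x * y + algebraMap R K c * y ^ 2 =
        ((x / y) ^ 2 + (x / y) + algebraMap R K c) * y ^ 2 := by
      field_simp
    rw [e, map_mul, h1 _ ht, one_mul, map_pow, max_eq_right h]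
  · have hx0 : 0 < w x := hy0.trans h
    have e : x ^ 2 + x * y + algebraMap R K c * y ^ 2 =
        x ^ 2 + (x + algebraMap R K c * y) * y := by ring
    have hs : w ((x + algebraMap R K c * y) * y) < w (x ^ 2) := by
      rw [map_mul, map_pow, pow_two]
      have : w (x + algebraMap R K c * y) ≤ w x := by
        refine (hna _ _).trans (max_le le_rfl ?_)
        rw [map_mul, hc1, one_mul]
        exact h.le
      calc w (x + algebraMap R K c * y) * w y ≤ w x * w y := by gcongr
        _ < w x * w x := by gcongr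
    rw [e, hlt _ _ hs, map_pow, max_eq_left h.le]

theorem exists_data_of_finite (P : HeightOneSpectrum R) [Finite (R ⧸ P.asIdeal)] :
    ∃ (v : AbsoluteValue K ℝ) (ϖ c : K), Disc v ϖ ∧ Anis v c ∧ ∀ n : ℤ, v n ≤ 1 := by
  obtain ⟨π, hπ⟩ := P.valuation_exists_uniformizer K
  have : P.asIdeal.IsMaximal := P.isMaximal
  let _ : Field (R ⧸ P.asIdeal) := Ideal.Quotient.field P.asIdeal
  obtain ⟨c₀, hc₀⟩ := exists_no_root (R ⧸ P.asIdeal)
  obtain ⟨c, rfl⟩ := Ideal.Quotient.mk_surjective c₀
  refine ⟨P.adicAbv (K := K) (b := 2) one_lt_two, π, algebraMap R K c, disc_adic P π hπ,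
    anis_adic P c ?_, ?_⟩
  · intro r hr
    apply hc₀ (Ideal.Quotient.mk _ r)
    rw [← map_pow, ← map_add, ← map_add]
    exact Ideal.Quotient.eq_zero_iff_mem.mpr hr
  · intro n
    have : ((n : ℤ) : K) = algebraMap R K (n : R) := by simp
    rw [this]
    exact P.adicAbv_coe_le_one one_lt_two _


section Padic

theorem exists_data (p : ℕ) [Fact p.Prime] (k : Type*) [Field k] [Algebra ℚ_[p] k]
    [FiniteDimensional ℚ_[p] k] :
    ∃ (v : AbsoluteValue k ℝ) (ϖ c : k), Disc v ϖ ∧ Anis v c ∧ ∀ n : ℤ, v n ≤ 1 := by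
  let _ : Algebra ℤ_[p] k := ((algebraMap ℚ_[p] k).comp (algebraMap ℤ_[p] ℚ_[p])).toAlgebra
  have : IsScalarTower ℤ_[p] ℚ_[p] k := IsScalarTower.of_algebraMap_eq fun _ => rfl
  have hchar : CharZero k := charZero_of_injective_algebraMap (algebraMap ℚ_[p] k).injective
  let R := integralClosure ℤ_[p] k
  have hinj : Function.Injective (algebraMap ℤ_[p] k) :=
    (algebraMap ℚ_[p] k).injective.comp Subtype.val_injective
  have : IsDedekindDomain R := integralClosure.isDedekindDomain ℤ_[p] ℚ_[p] k
  have : IsFractionRing R k := integralClosure.isFractionRing_of_finite_extension ℚ_[p] k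
  have hfin : Module.Finite ℤ_[p] R := IsIntegralClosure.finite ℤ_[p] ℚ_[p] k R
  have hnf : ¬ IsField R := by
    intro h
    have h2 := isField_of_isIntegral_of_isField (R := ℤ_[p]) (S := R)
      (by
        intro x y hxy
        exact hinj (congrArg Subtype.val hxy)) h
    exact IsDiscreteValuationRing.not_isField ℤ_[p] h2
  obtain ⟨M, hM⟩ := Ideal.exists_maximal R
  have hM0 : M ≠ ⊥ := Ring.ne_bot_of_isMaximal_of_not_isField hM hnf
  let P : HeightOneSpectrum R := ⟨M, hM.isPrime, hM0⟩
  have hcomap : (M.under ℤ_[p]).IsMaximal := Ideal.isMaximal_comap_of_isIntegral_of_isMaximal M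
  have heq : M.under ℤ_[p] = IsLocalRing.maximalIdeal ℤ_[p] := IsLocalRing.eq_maximalIdeal hcomap
  have hfinq : Finite (ℤ_[p] ⧸ M.under ℤ_[p]) := by
    rw [heq]
    exact Finite.of_injective _ (PadicInt.residueField (p := p)).injective
  have hmf : Module.Finite (ℤ_[p] ⧸ M.under ℤ_[p]) (R ⧸ M) := by
    infer_instance
  have hRM : Finite (R ⧸ M) := Module.finite_of_finite (ℤ_[p] ⧸ M.under ℤ_[p])
  have : Finite (R ⧸ P.asIdeal) := hRM
  exact exists_data_of_finite P

end Padic

end Pool.Agent.W478.RP5
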