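import Mathlib

set_option autoImplicit false

open Polynomial

namespace Pool.Agent.W478.RP5

variable {k : Type*} [Field k]

/-- A nonarchimedean absolute value on `k` all of whose nonzero values are integral powers of
`v ϖ < 1`. -/
structure Disc (v : AbsoluteValue k ℝ) (ϖ : k) : Prop where
  na : IsNonarchimedean v
  pos : 0 < v ϖ
  lt : v ϖ < 1
  disc : ∀ x : k, x ≠ 0 → ∃ n : ℤ, v x = v ϖ ^ n

/-- A radius `ρ > 0` is generic when no nontrivial power of it is a value of `v`. -/
def Gen (v : AbsoluteValue k ℝ) (ϖ : k) (ρ : ℝ) : Prop :=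
  0 < ρ ∧ ∀ j n : ℤ, ρ ^ j = v ϖ ^ n → j = 0

variable {v : AbsoluteValue k ℝ} {ϖ : k}

theorem gaussNorm_sub_monomial_lt {ρ : ℝ} (hv : Disc v ϖ) (hρ : Gen v ϖ ρ) (G : k[X])
    (hG : G ≠ 0) :
    ∃ i : ℕ, G.coeff i ≠ 0 ∧ G.gaussNorm v ρ = v (G.coeff i) * ρ ^ i ∧
      (G - monomial i (G.coeff i)).gaussNorm v ρ < G.gaussNorm v ρ := by
  obtain ⟨hρ0, hgen⟩ := hρ
  obtain ⟨i, hi⟩ := exists_eq_gaussNorm v ρ G
  have hpos : 0 < G.gaussNorm v ρ := by
    refine lt_of_le_of_ne (gaussNorm_nonneg v _ hρ0.le) ?_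
    intro h
    exact hG ((gaussNorm_eq_zero_iff v G (fun x hx => (AbsoluteValue.eq_zero v).mp hx) hρ0).mp
      h.symm)
  have hci : G.coeff i ≠ 0 := by
    intro h
    rw [h] at hi
    simp at hi
    linarith
  refine ⟨i, hci, hi, ?_⟩
  set H := G - monomial i (G.coeff i) with hH
  obtain ⟨j, hj⟩ := exists_eq_gaussNorm v ρ H
  rw [hj]
  by_cases hij : i = j
  · subst hij
    have : H.coeff i = 0 := by simp [hH]
    rw [this]
    simpa using hpos
  · have hcoef : H.coeff j = G.coeff j := by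
      simp [hH, coeff_monomial, hij]
    rw [hcoef]
    by_cases hcj : G.coeff j = 0
    · rw [hcj]; simpa using hpos
    refine lt_of_le_of_ne (le_gaussNorm v G hρ0.le j) ?_
    intro h
    rw [hi] at h
    obtain ⟨m, hm⟩ := hv.disc _ hcj
    obtain ⟨n, hn⟩ := hv.disc _ hci
    rw [hm, hn] at h
    have hϖ0 := hv.pos.ne'
    have key : ρ ^ ((j : ℤ) - i) = v ϖ ^ (n - m) := by
      rw [zpow_sub₀ hρ0.ne', zpow_sub₀ hϖ0, div_eq_div_iff (by positivity) (by
        have := hv.pos; positivity)]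
      rw [zpow_natCast, zpow_natCast]
      linarith
    have := hgen _ _ key
    omega

/-- Ultrametric inequality for three terms. -/
theorem gn_add_le {ρ : ℝ} (hv : Disc v ϖ) (hρ : 0 ≤ ρ) (G H : k[X]) :
    (G + H).gaussNorm v ρ ≤ max (G.gaussNorm v ρ) (H.gaussNorm v ρ) :=
  isNonarchimedean_gaussNorm v hv.na hρ G H

theorem gn_neg {ρ : ℝ} (G : k[X]) :
    (-G).gaussNorm v ρ = G.gaussNorm v ρ := by
  unfold gaussNorm
  simp only [support_neg, coeff_neg, AbsoluteValue.map_neg]

theorem gn_add_eq_of_lt {ρ : ℝ} (hv : Disc v ϖ) (hρ : 0 ≤ ρ) {G H : k[X]}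
    (h : H.gaussNorm v ρ < G.gaussNorm v ρ) :
    (G + H).gaussNorm v ρ = G.gaussNorm v ρ := by
  apply le_antisymm
  · exact (gn_add_le hv hρ G H).trans (max_le le_rfl h.le)
  · by_contra hlt
    push Not at hlt
    have h1 : G = (G + H) + (-H) := by ring
    have h2 := gn_add_le (v := v) hv hρ (G + H) (-H)
    rw [← h1, gn_neg] at h2
    rcases le_max_iff.mp h2 with h3 | h3 <;> linarith

theorem gn_mul {ρ : ℝ} (hv : Disc v ϖ) (hρ : 0 < ρ) (G H : k[X]) :
    (G * H).gaussNorm v ρ = G.gaussNorm v ρ * H.gaussNorm v ρ :=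
  gaussNorm_mul hv.na hρ G H

theorem gn_nonneg {ρ : ℝ} (hρ : 0 ≤ ρ) (G : k[X]) : 0 ≤ G.gaussNorm v ρ :=
  gaussNorm_nonneg v _ hρ

theorem gn_pos {ρ : ℝ} (hρ : 0 < ρ) {G : k[X]} (hG : G ≠ 0) : 0 < G.gaussNorm v ρ := by
  refine lt_of_le_of_ne (gaussNorm_nonneg v _ hρ.le) ?_
  intro h
  exact hG ((gaussNorm_eq_zero_iff v G (fun x hx => (AbsoluteValue.eq_zero v).mp hx) hρ).mp
    h.symm)

/-- `c` gives an anisotropic form `x² + xy + c y²` over the residue field. -/
def Anis (v : AbsoluteValue k ℝ) (c : k) : Prop :=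
  ∀ x y : k, v (x ^ 2 + x * y + c * y ^ 2) = max (v x) (v y) ^ 2

theorem gn_normForm {ρ : ℝ} (hv : Disc v ϖ) (hρ : Gen v ϖ ρ) {c : k} (hc : Anis v c)
    (x y : k[X]) :
    (x ^ 2 + x * y + C c * y ^ 2).gaussNorm v ρ =
      max (x.gaussNorm v ρ) (y.gaussNorm v ρ) ^ 2 := by
  have hρ0 := hρ.1
  have hc1 : v c = 1 := by
    have := hc 0 1
    simpa using this
  have hCc : (C c : k[X]).gaussNorm v ρ = 1 := by rw [gaussNorm_C, hc1]
  have nx := gn_nonneg (v := v) hρ0.le x
  have ny := gn_nonneg (v := v) hρ0.le y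
  rcases lt_trichotomy (x.gaussNorm v ρ) (y.gaussNorm v ρ) with h | h | h
  · have h1 : x ^ 2 + x * y + C c * y ^ 2 = C c * y ^ 2 + (x * (x + y)) := by ring
    rw [h1, gn_add_eq_of_lt hv hρ0.le, gn_mul hv hρ0, hCc, pow_two y, gn_mul hv hρ0,
      max_eq_right h.le]
    · ring
    · rw [gn_mul hv hρ0, gn_mul hv hρ0, hCc, pow_two y, gn_mul hv hρ0, one_mul]
      have h2 := gn_add_le (v := v) hv hρ0.le x y
      rw [max_eq_right h.le] at h2
      have hypos : 0 < y.gaussNorm v ρ := lt_of_le_of_lt nx h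
      calc x.gaussNorm v ρ * (x + y).gaussNorm v ρ ≤ x.gaussNorm v ρ * y.gaussNorm v ρ := by
            gcongr
        _ < y.gaussNorm v ρ * y.gaussNorm v ρ := by gcongr
  · by_cases hx : x = 0
    · subst hx
      have hy : y = 0 := by
        by_contra hy
        have := gn_pos (v := v) hρ0 hy
        simp at h
        linarith
      subst hy
      simp
    have hxpos := gn_pos (v := v) hρ0 hx
    have hy : y ≠ 0 := by
      rintro rfl
      simp at h
      linarith
    obtain ⟨i, hi0, hi, hi'⟩ := gaussNorm_sub_monomial_lt hv hρ x hx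
    obtain ⟨j, hj0, hj, hj'⟩ := gaussNorm_sub_monomial_lt hv hρ y hy
    have hij : j = i := by
      obtain ⟨m, hm⟩ := hv.disc _ hj0
      obtain ⟨n, hn⟩ := hv.disc _ hi0
      rw [hi, hj, hm, hn] at h
      have hϖ0 := hv.pos.ne'
      have key : ρ ^ ((j : ℤ) - i) = v ϖ ^ (n - m) := by
        rw [zpow_sub₀ hρ0.ne', zpow_sub₀ hϖ0, div_eq_div_iff (by positivity) (by
          have := hv.pos; positivity)]
        rw [zpow_natCast, zpow_natCast]
        linarith
      have := hρ.2 _ _ key
      omega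
    subst hij
    have hvv : v (x.coeff j) = v (y.coeff j) := by
      rw [hi, hj] at h
      exact mul_right_cancel₀ (by positivity) h
    set m := x.gaussNorm v ρ with hm
    rw [← h] at hj' ⊢
    set α := x.coeff j
    set β := y.coeff j
    set x' := x - monomial j α with hx'
    set y' := y - monomial j β with hy'
    have ex : x = monomial j α + x' := by rw [hx']; ring
    have ey : y = monomial j β + y' := by rw [hy']; ring
    have nA : (monomial j α : k[X]).gaussNorm v ρ = m := by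
      rw [gaussNorm_monomial, hi]
    have nB : (monomial j β : k[X]).gaussNorm v ρ = m := by
      rw [gaussNorm_monomial, ← hj, ← h]
    have expand : x ^ 2 + x * y + C c * y ^ 2 =
        (monomial j α ^ 2 + monomial j α * monomial j β + C c * monomial j β ^ 2) +
        (x' * (x + monomial j α) + (x' * y + (monomial j α * y' + C c * (y' * (y + monomial j β)))))
        := by
      rw [hx', hy']; ring
    have lead : (monomial j α ^ 2 + monomial j α * monomial j β + C c * monomial j β ^ 2 : k[X]) =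
        monomial (j + j) (α ^ 2 + α * β + c * β ^ 2) := by
      rw [pow_two, pow_two, monomial_mul_monomial, monomial_mul_monomial, monomial_mul_monomial,
        C_mul_monomial, ← map_add, ← map_add]
      congr 1
      ring
    have nlead : (monomial j α ^ 2 + monomial j α * monomial j β
        + C c * monomial j β ^ 2 : k[X]).gaussNorm v ρ = m * m := by
      rw [lead, gaussNorm_monomial, hc, ← hvv, max_self, pow_add]
      have : m = v α * ρ ^ j := hi
      rw [this]
      ring
    have hx'm : x'.gaussNorm v ρ < m := hi'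
    have hy'm : y'.gaussNorm v ρ < m := hj'
    have b1 : (x + monomial j α).gaussNorm v ρ ≤ m := by
      refine (gn_add_le hv hρ0.le _ _).trans ?_
      rw [nA, ← hm]; simp
    have b2 : (y + monomial j β).gaussNorm v ρ ≤ m := by
      refine (gn_add_le hv hρ0.le _ _).trans ?_
      rw [nB, ← h]; simp
    have nx' := gn_nonneg (v := v) hρ0.le x'
    have ny' := gn_nonneg (v := v) hρ0.le y'
    have t1 : (x' * (x + monomial j α)).gaussNorm v ρ < m * m := by
      rw [gn_mul hv hρ0]
      calc _ ≤ x'.gaussNorm v ρ * m := by gcongr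
        _ < m * m := by gcongr
    have t2 : (x' * y).gaussNorm v ρ < m * m := by
      rw [gn_mul hv hρ0, ← h]
      gcongr
    have t3 : (monomial j α * y').gaussNorm v ρ < m * m := by
      rw [gn_mul hv hρ0, nA]
      gcongr
    have t4 : (C c * (y' * (y + monomial j β))).gaussNorm v ρ < m * m := by
      rw [gn_mul hv hρ0, gn_mul hv hρ0, hCc, one_mul]
      calc _ ≤ y'.gaussNorm v ρ * m := by gcongr
        _ < m * m := by gcongr
    have t : (x' * (x + monomial j α) + (x' * y + (monomial j α * y'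
        + C c * (y' * (y + monomial j β))))).gaussNorm v ρ < m * m := by
      refine (gn_add_le hv hρ0.le _ _).trans_lt (max_lt t1 ?_)
      refine (gn_add_le hv hρ0.le _ _).trans_lt (max_lt t2 ?_)
      exact (gn_add_le hv hρ0.le _ _).trans_lt (max_lt t3 t4)
    rw [max_self, expand, gn_add_eq_of_lt hv hρ0.le (by rw [nlead]; exact t), nlead, pow_two]
  · have h1 : x ^ 2 + x * y + C c * y ^ 2 = x ^ 2 + ((x + C c * y) * y) := by ring
    rw [h1, gn_add_eq_of_lt hv hρ0.le, pow_two x, gn_mul hv hρ0, max_eq_left h.le]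
    · ring
    · rw [gn_mul hv hρ0, pow_two x, gn_mul hv hρ0]
      have h2 := gn_add_le (v := v) hv hρ0.le x (C c * y)
      rw [gn_mul hv hρ0, hCc, one_mul, max_eq_left h.le] at h2
      have hxpos : 0 < x.gaussNorm v ρ := lt_of_le_of_lt ny h
      calc (x + C c * y).gaussNorm v ρ * y.gaussNorm v ρ
          ≤ x.gaussNorm v ρ * y.gaussNorm v ρ := by gcongr
        _ < x.gaussNorm v ρ * x.gaussNorm v ρ := by gcongr

end Pool.Agent.W478.RP5
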