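import Pool.Agent.W478.RP5.Core

set_option autoImplicit false

open Polynomial

namespace Pool.Agent.W478.RP5

variable {k : Type*} [Field k] {v : AbsoluteValue k ℝ} {ϖ : k}

theorem gn_value {ρ : ℝ} (hv : Disc v ϖ) (G : k[X]) :
    G.gaussNorm v ρ = 0 ∨ ∃ (n : ℤ) (i : ℕ), G.gaussNorm v ρ = v ϖ ^ n * ρ ^ i := by
  obtain ⟨i, hi⟩ := exists_eq_gaussNorm v ρ G
  by_cases h : G.coeff i = 0
  · left; rw [hi, h]; simp
  · right
    obtain ⟨n, hn⟩ := hv.disc _ h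
    exact ⟨n, i, by rw [hi, hn]⟩

theorem max_value {ρ : ℝ} (hv : Disc v ϖ) (G H : k[X]) :
    max (G.gaussNorm v ρ) (H.gaussNorm v ρ) = 0 ∨
      ∃ (n : ℤ) (i : ℕ), max (G.gaussNorm v ρ) (H.gaussNorm v ρ) = v ϖ ^ n * ρ ^ i := by
  rcases max_choice (G.gaussNorm v ρ) (H.gaussNorm v ρ) with h | h <;> rw [h] <;>
    exact gn_value hv _

theorem zpow_eq_one_imp (hv : Disc v ϖ) {n : ℤ} (h : v ϖ ^ n = 1) : n = 0 := by
  have h0 := hv.pos
  have h1 := hv.lt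
  by_contra hn
  rcases lt_or_gt_of_ne hn with hn | hn
  · have : 1 < v ϖ ^ n := one_lt_zpow_of_neg₀ h0 h1 hn
    linarith
  · have : v ϖ ^ n < 1 := zpow_lt_one₀ h0 h1 hn
    linarith

/-- No tie between `M²` and `|ϖ| L²` at a generic radius. -/
theorem no_tie {ρ : ℝ} (hv : Disc v ϖ) (hρ : Gen v ϖ ρ) {M L : ℝ}
    (hM : M = 0 ∨ ∃ (n : ℤ) (i : ℕ), M = v ϖ ^ n * ρ ^ i)
    (hL : L = 0 ∨ ∃ (n : ℤ) (i : ℕ), L = v ϖ ^ n * ρ ^ i)
    (h : M ^ 2 = v ϖ * L ^ 2) : M = 0 ∧ L = 0 := by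
  have h0 := hv.pos
  have hρ0 := hρ.1
  rcases hM with hM | ⟨n, i, hM⟩
  · subst hM
    refine ⟨rfl, ?_⟩
    have : v ϖ * L ^ 2 = 0 := by rw [← h]; ring
    rcases mul_eq_zero.mp this with h1 | h1
    · exact absurd h1 h0.ne'
    · exact pow_eq_zero_iff (two_ne_zero) |>.mp h1
  · rcases hL with hL | ⟨m, j, hL⟩
    · subst hL
      have : M ^ 2 = 0 := by rw [h]; ring
      exact ⟨pow_eq_zero_iff (two_ne_zero) |>.mp this, rfl⟩
    · exfalso
      rw [hM, hL] at h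
      have key : ρ ^ ((i : ℤ) * 2 - j * 2) = v ϖ ^ (1 + m * 2 - n * 2) := by
        rw [zpow_sub₀ hρ0.ne', zpow_sub₀ h0.ne', div_eq_div_iff (by positivity) (by positivity)]
        rw [zpow_add₀ h0.ne', zpow_one, zpow_mul, zpow_mul, zpow_mul, zpow_mul, zpow_natCast,
          zpow_natCast, zpow_ofNat, zpow_ofNat, zpow_ofNat, zpow_ofNat]
        linear_combination h
      have hij := hρ.2 _ _ key
      rw [hij, zpow_zero] at key
      have := zpow_eq_one_imp hv key.symm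
      omega

/-- The equations of the example. -/
structure Sol (ϖ c : k) (x₁ x₂ y₁ y₂ z w : k[X]) : Prop where
  e1 : x₁ * x₂ + C (ϖ ^ 2) * y₁ ^ 2 = z * w
  e2 : (x₁ ^ 2 + x₁ * x₂ + C c * x₂ ^ 2) + C ϖ * (y₂ ^ 2 + y₂ * y₁ + C c * y₁ ^ 2) =
    z ^ 2 + C ϖ * w ^ 2

/-- The key inequality: the ratio `|z| / |w|` never lies strictly between `|ϖ|` and `1`. -/
theorem key_gen {ρ : ℝ} (hv : Disc v ϖ) (hρ : Gen v ϖ ρ) {c : k} (hc : Anis v c)
    {x₁ x₂ y₁ y₂ z w : k[X]} (S : Sol ϖ c x₁ x₂ y₁ y₂ z w) :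
    ¬ (v ϖ * w.gaussNorm v ρ < z.gaussNorm v ρ ∧ z.gaussNorm v ρ < w.gaussNorm v ρ) := by
  rintro ⟨h1, h2⟩
  have hρ0 := hρ.1
  have hϖ0 := hv.pos
  have hϖ1 := hv.lt
  set M := max (x₁.gaussNorm v ρ) (x₂.gaussNorm v ρ) with hM
  set L := max (y₂.gaussNorm v ρ) (y₁.gaussNorm v ρ) with hL
  set a := z.gaussNorm v ρ with ha
  set b := w.gaussNorm v ρ with hb
  have a0 : 0 ≤ a := gn_nonneg hρ0.le z
  have b0 : 0 ≤ b := gn_nonneg hρ0.le w
  have M1 : x₁.gaussNorm v ρ ≤ M := le_max_left _ _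
  have M2 : x₂.gaussNorm v ρ ≤ M := le_max_right _ _
  have L1 : y₁.gaussNorm v ρ ≤ L := le_max_right _ _
  have x10 := gn_nonneg (v := v) hρ0.le x₁
  have x20 := gn_nonneg (v := v) hρ0.le x₂
  have y10 := gn_nonneg (v := v) hρ0.le y₁
  have M0 : 0 ≤ M := x10.trans M1
  have L0 : 0 ≤ L := y10.trans L1
  -- first equation
  have i1 : a * b ≤ max (M ^ 2) (v ϖ * L ^ 2) := by
    rw [ha, hb, ← gn_mul hv hρ0, ← S.e1]
    refine (gn_add_le hv hρ0.le _ _).trans (max_le_max ?_ ?_)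
    · rw [gn_mul hv hρ0, pow_two]
      gcongr
    · rw [gn_mul hv hρ0, gaussNorm_C, pow_two y₁, gn_mul hv hρ0, map_pow, ← pow_two]
      have : v ϖ ^ 2 ≤ v ϖ := by nlinarith
      gcongr
  -- second equation
  have i2 : max (M ^ 2) (v ϖ * L ^ 2) ≤ max (a ^ 2) (v ϖ * b ^ 2) := by
    have n1 := gn_normForm hv hρ hc x₁ x₂
    have n2 : (C ϖ * (y₂ ^ 2 + y₂ * y₁ + C c * y₁ ^ 2)).gaussNorm v ρ = v ϖ * L ^ 2 := by
      rw [gn_mul hv hρ0, gaussNorm_C, gn_normForm hv hρ hc]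
    have n3 : ((x₁ ^ 2 + x₁ * x₂ + C c * x₂ ^ 2)
        + C ϖ * (y₂ ^ 2 + y₂ * y₁ + C c * y₁ ^ 2)).gaussNorm v ρ =
        max (M ^ 2) (v ϖ * L ^ 2) := by
      rcases lt_trichotomy (M ^ 2) (v ϖ * L ^ 2) with h | h | h
      · rw [add_comm, gn_add_eq_of_lt hv hρ0.le (by rw [n1, n2]; exact h), n2, max_eq_right h.le]
      · obtain ⟨hM0, hL0⟩ : M = 0 ∧ L = 0 :=
          no_tie hv hρ (max_value hv _ _) (max_value hv _ _) h
        rw [hM0, hL0]
        have z1 : (x₁ ^ 2 + x₁ * x₂ + C c * x₂ ^ 2).gaussNorm v ρ = 0 := by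
          rw [n1, ← hM, hM0]; ring
        have z2 : (C ϖ * (y₂ ^ 2 + y₂ * y₁ + C c * y₁ ^ 2)).gaussNorm v ρ = 0 := by
          rw [n2, hL0]; ring
        have e0 : ∀ x : k, v x = 0 → x = 0 := fun x hx => (AbsoluteValue.eq_zero v).mp hx
        rw [(gaussNorm_eq_zero_iff v _ e0 hρ0).mp z1, (gaussNorm_eq_zero_iff v _ e0 hρ0).mp z2]
        simp
      · rw [gn_add_eq_of_lt hv hρ0.le (by rw [n1, n2]; exact h), n1, max_eq_left h.le]
    rw [← n3, S.e2]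
    refine (gn_add_le hv hρ0.le _ _).trans (max_le_max ?_ ?_)
    · rw [pow_two, gn_mul hv hρ0, pow_two]
    · rw [gn_mul hv hρ0, gaussNorm_C, pow_two, gn_mul hv hρ0, pow_two]
  have i3 := i1.trans i2
  have bpos : 0 < b := lt_of_le_of_lt a0 h2
  have apos : 0 < a := lt_of_le_of_lt (by positivity) h1
  rcases le_max_iff.mp i3 with h | h
  · nlinarith
  · nlinarith

theorem gn_continuous (G : k[X]) : Continuous fun ρ : ℝ => G.gaussNorm v ρ := by
  unfold gaussNorm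
  by_cases h : G.support.Nonempty
  · simp only [h, ↓reduceDIte]
    apply Continuous.finset_sup'_apply
    intro i _
    fun_prop
  · simp only [h, ↓reduceDIte]
    exact continuous_const

theorem gen_dense {a b : ℝ} (ha : 0 ≤ a) (hab : a < b) :
    ∃ ρ, a < ρ ∧ ρ < b ∧ Gen v ϖ ρ := by
  set bad : Set ℝ := ⋃ (j : ℤ) (n : ℤ), {ρ : ℝ | 0 < ρ ∧ j ≠ 0 ∧ ρ ^ j = v ϖ ^ n} with hbad
  have hc : bad.Countable := by
    refine Set.countable_iUnion fun j => Set.countable_iUnion fun n => ?_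
    apply Set.Subsingleton.countable
    rintro x ⟨hx0, hj, hx⟩ y ⟨hy0, -, hy⟩
    have : x ^ j = y ^ j := hx.trans hy.symm
    exact (zpow_left_inj₀ hx0.le hy0.le hj).mp this
  have hd : Dense badᶜ := hc.dense_compl ℝ
  obtain ⟨ρ, hρ1, hρ2⟩ := hd.exists_between hab
  refine ⟨ρ, hρ2.1, hρ2.2, lt_of_le_of_lt ha hρ2.1, ?_⟩
  intro j n h
  by_contra hj
  exact hρ1 (Set.mem_iUnion.mpr ⟨j, Set.mem_iUnion.mpr ⟨n, lt_of_le_of_lt ha hρ2.1, hj, h⟩⟩)

/-- The same for all positive radii, by continuity. -/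
theorem key_all {ρ : ℝ} (hρ : 0 < ρ) (hv : Disc v ϖ) {c : k} (hc : Anis v c)
    {x₁ x₂ y₁ y₂ z w : k[X]} (S : Sol ϖ c x₁ x₂ y₁ y₂ z w) :
    ¬ (v ϖ * w.gaussNorm v ρ < z.gaussNorm v ρ ∧ z.gaussNorm v ρ < w.gaussNorm v ρ) := by
  intro h
  have cz := gn_continuous (v := v) z
  have cw := gn_continuous (v := v) w
  have o1 : IsOpen {t : ℝ | v ϖ * w.gaussNorm v t < z.gaussNorm v t} :=
    isOpen_lt (by fun_prop) cz
  have o2 : IsOpen {t : ℝ | z.gaussNorm v t < w.gaussNorm v t} := isOpen_lt cz cw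
  have o3 : IsOpen {t : ℝ | 0 < t} := isOpen_lt continuous_const continuous_id
  have o := (o1.inter o2).inter o3
  obtain ⟨ε, hε, hball⟩ := Metric.isOpen_iff.mp o ρ ⟨⟨h.1, h.2⟩, hρ⟩
  obtain ⟨ρ', h1, h2, hg⟩ := gen_dense (v := v) (ϖ := ϖ) hρ.le (show ρ < ρ + ε by linarith)
  have hmem := hball (show ρ' ∈ Metric.ball ρ ε by
    rw [Metric.mem_ball, Real.dist_eq, abs_lt]; constructor <;> linarith)
  exact key_gen hv hg hc S ⟨hmem.1.1, hmem.1.2⟩

/-- No crossing: the coefficient vector at `0` and the one at `N` of a solution with entries of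
degree at most `N` are on the same side. -/
theorem no_cross (hv : Disc v ϖ) {c : k} (hc : Anis v c)
    {x₁ x₂ y₁ y₂ z w : k[X]} (S : Sol ϖ c x₁ x₂ y₁ y₂ z w) (N : ℕ)
    (hwN : w.natDegree ≤ N)
    (h0 : v (z.coeff 0) ≤ v ϖ * v (w.coeff 0)) (h0' : w.coeff 0 ≠ 0)
    (h1 : v (w.coeff N) ≤ v (z.coeff N)) (h1' : z.coeff N ≠ 0) : False := by
  have cz := gn_continuous (v := v) z
  have cw := gn_continuous (v := v) w
  have hϖ0 := hv.pos
  have hϖ1 := hv.lt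
  have w0 : w ≠ 0 := by rintro rfl; simp at h0'
  have z0 : z ≠ 0 := by rintro rfl; simp at h1'
  have pw0 : 0 < v (w.coeff 0) := (AbsoluteValue.pos_iff v).mpr h0'
  have pzN : 0 < v (z.coeff N) := (AbsoluteValue.pos_iff v).mpr h1'
  -- small radius
  obtain ⟨r₁, hr₁, hs₁⟩ : ∃ r : ℝ, 0 < r ∧ z.gaussNorm v r < w.gaussNorm v r := by
    have o2 : IsOpen {t : ℝ | z.gaussNorm v t < w.gaussNorm v t} := isOpen_lt cz cw
    have m0 : (0 : ℝ) ∈ {t : ℝ | z.gaussNorm v t < w.gaussNorm v t} := by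
      simp only [Set.mem_ofPred_eq, gaussNorm_zero_right]
      nlinarith
    obtain ⟨ε, hε, hball⟩ := Metric.isOpen_iff.mp o2 0 m0
    refine ⟨ε / 2, by linarith, ?_⟩
    exact hball (show ε / 2 ∈ Metric.ball (0 : ℝ) ε by
      rw [Metric.mem_ball, Real.dist_eq, abs_lt]; constructor <;> linarith)
  -- large radius
  obtain ⟨r₂, hr₂, hs₂⟩ : ∃ r : ℝ, 0 < r ∧ w.gaussNorm v r ≤ z.gaussNorm v r := by
    set B := w.gaussNorm v 1 with hB
    have B0 : 0 < B := gn_pos one_pos w0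
    set r := max 1 (B / v (z.coeff N)) with hr
    have r1 : 1 ≤ r := le_max_left _ _
    have r2 : B / v (z.coeff N) ≤ r := le_max_right _ _
    have r2' : B ≤ r * v (z.coeff N) := by
      rwa [div_le_iff₀ pzN] at r2
    have r0 : 0 < r := by linarith
    refine ⟨r, r0, ?_⟩
    have lz := le_gaussNorm v z r0.le N
    obtain ⟨i, hi⟩ := exists_eq_gaussNorm v r w
    rw [hi]
    refine le_trans ?_ lz
    rcases lt_trichotomy i N with h | h | h
    · have li := le_gaussNorm v w (zero_le_one) i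
      rw [one_pow, mul_one, ← hB] at li
      obtain ⟨d, rfl⟩ : ∃ d, N = i + 1 + d := ⟨N - i - 1, by omega⟩
      calc v (w.coeff i) * r ^ i ≤ B * r ^ i := by gcongr
        _ ≤ (r * v (z.coeff (i + 1 + d))) * r ^ i := by gcongr
        _ = v (z.coeff (i + 1 + d)) * r ^ (i + 1) * 1 := by ring
        _ ≤ v (z.coeff (i + 1 + d)) * r ^ (i + 1) * r ^ d := by
            gcongr
            exact one_le_pow₀ r1
        _ = _ := by rw [pow_add]; ring
    · subst h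
      gcongr
    · have : w.coeff i = 0 := coeff_eq_zero_of_natDegree_lt (by omega)
      rw [this]
      simp only [map_zero, zero_mul]
      positivity
  -- intermediate value
  have hs₂' : ¬ z.gaussNorm v r₂ < w.gaussNorm v r₂ := not_lt.mpr hs₂
  -- the continuous function
  set F : ℝ → ℝ := fun t => z.gaussNorm v t - (1 + v ϖ) / 2 * w.gaussNorm v t with hF
  have cF : Continuous F := by fun_prop
  have F1 : F r₁ ≤ 0 := by
    have hk := key_all hr₁ hv hc S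
    have : z.gaussNorm v r₁ ≤ v ϖ * w.gaussNorm v r₁ := by
      by_contra hcon
      exact hk ⟨not_le.mp hcon, hs₁⟩
    have wp := gn_pos (v := v) hr₁ w0
    simp only [hF]
    nlinarith
  have F2 : 0 ≤ F r₂ := by
    have wp := gn_pos (v := v) hr₂ w0
    simp only [hF]
    nlinarith
  have hmem : (0 : ℝ) ∈ Set.uIcc (F r₁) (F r₂) := Set.mem_uIcc.mpr (Or.inl ⟨F1, F2⟩)
  obtain ⟨t, ht, hFt⟩ := intermediate_value_uIcc (cF.continuousOn) hmem
  have t0 : 0 < t := by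
    rcases Set.mem_uIcc.mp ht with h | h
    · linarith [h.1]
    · linarith [h.1]
  have wp := gn_pos (v := v) t0 w0
  simp only [hF] at hFt
  apply key_all t0 hv hc S
  constructor <;> nlinarith

end Pool.Agent.W478.RP5
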